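import Pool.Agent.Run7.h238.J.Stm
import Pool.Agent.Run7.h843.G8

/-!
# Project JL, part J-TR: the translation to integers (after `Pool/Agent/N916/GB/Tr.lean` by
helper916, `Pool/Agent/Run7/h741/NM/Fin.lean` by helper741 and `Pool/Agent/Run7/h843/G8.lean` by
helper843)
-/

set_option autoImplicit false

open scoped Classical
open Finset Filter

namespace Pool.Agent.Run7.h424.J

open Pool.Agent.Run7.h238.J
open Pool.Agent.N916.GB (Po sum_uu)
open Pool.Agent.N973.ND (uu)
open Pool.Agent.Run7.h741.NM (Cl SS card_eq low)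
open Pool.Agent.Run7.h843.G (Gdk OkM Gdk_iff_Nf Nf)
open Run7.h843.L (gk gk_mem)

/-- the proportion in the integers -/
theorem densJ {N : ℕ} (r : Fin N → ℕ) (hJ : S_JDQ r) (V : Fin N → Finset ℕ)
    (hV : Function.Injective V) (hMu : ∀ k, Mu (V k)) (M : ℕ) (hM : 8 ∣ M) (hM0 : 0 < M)
    (K : Finset ℕ) (hok : OkM M false 0 0 K) (b : ℕ) (hb : b ∈ K) (hc : b.Coprime M) :
    Tendsto (fun X : ℕ => (((Icc 1 X).filter fun n => Squarefree n ∧ n % M ∈ K ∧
      GdJ r V n.primeFactors).card : ℝ) /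
    (((Icc 1 X).filter fun n => Squarefree n ∧ n % M ∈ K).card : ℝ)) atTop
    (nhds (∏ k, gk (r k))) := by
  have hM2 : 2 ∣ M := Dvd.dvd.trans (by norm_num) hM
  have hK : ∀ b ∈ K, b < M ∧ b % 2 = 1 := by
    intro b hb
    have := hok.2.2 b hb
    refine ⟨this.1, ?_⟩
    have h2 := this.2
    split_ifs at h2 <;> omega
  have hMr : (0 : ℝ) < M := by exact_mod_cast hM0
  rw [Metric.tendsto_atTop]
  intro ε hε
  obtain ⟨X₀, hX₀⟩ := hJ M hM hM0 K hok V hV hMu (ε / 2 * (1 / (4 * M))) (by positivity)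
  refine ⟨max X₀ (100 * M ^ 2), fun X hX => ?_⟩
  have h1 := hX₀ X ((le_max_left _ _).trans hX)
  have e1 := card_eq hM2 (fun b hb => (hK b hb).2) X (GdJ r V)
  have e2 := card_eq hM2 (fun b hb => (hK b hb).2) X (fun _ => True)
  rw [Finset.filter_true] at e2
  simp only [and_true] at e2
  rw [← e1, ← e2] at h1
  have h2 := low hM2 hM0 (hK b hb).1 hc X ((le_max_right _ _).trans hX)
  have h3 : (((Icc 1 X).filter fun D => Squarefree D ∧ D % M = b).card : ℝ) ≤
      (((Icc 1 X).filter fun n => Squarefree n ∧ n % M ∈ K).card : ℝ) := by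
    refine Nat.cast_le.2 (card_le_card fun n hn => ?_)
    rw [mem_filter] at hn ⊢
    refine ⟨hn.1, hn.2.1, ?_⟩
    rw [hn.2.2]
    exact hb
  have hX1 : (0 : ℝ) < X := by
    have h4 : 0 < X := by
      have h5 := (le_max_right X₀ (100 * M ^ 2)).trans hX
      have h6 : 0 < 100 * M ^ 2 := by positivity
      omega
    exact_mod_cast h4
  set L : ℝ := (((Icc 1 X).filter fun n => Squarefree n ∧ n % M ∈ K).card : ℝ) with hL
  have hL0 : 0 < L := by
    have : (0 : ℝ) < 1 / (4 * M) * X := by positivity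
    linarith
  rw [Real.dist_eq, div_sub' hL0.ne', abs_div, abs_of_pos hL0, div_lt_iff₀ hL0]
  have h4 : ε / 2 * (1 / (4 * M)) * X ≤ ε / 2 * L := by
    have := h2.trans h3
    calc ε / 2 * (1 / (4 * M)) * X = ε / 2 * (1 / (4 * M) * X) := by ring
      _ ≤ ε / 2 * L := by gcongr
  have h5 : ε / 2 * L < ε * L := by
    apply mul_lt_mul_of_pos_right _ hL0
    linarith
  calc |(((Icc 1 X).filter fun n => Squarefree n ∧ n % M ∈ K ∧
      GdJ r V n.primeFactors).card : ℝ) - L * ∏ k, gk (r k)| =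
      |(((Icc 1 X).filter fun n => Squarefree n ∧
        n % M ∈ K ∧ GdJ r V n.primeFactors).card : ℝ) - (∏ k, gk (r k)) * L| := by
          rw [mul_comm L]
    _ ≤ ε / 2 * (1 / (4 * M)) * X := h1
    _ < ε * L := by linarith

/-- the squarefree part of the product -/
theorem tw_spec {a n : ℕ} (ha : Squarefree a) (hn : Squarefree n) :
    Squarefree (tw a n) ∧ (tw a n).primeFactors = symmDiff n.primeFactors a.primeFactors ∧
      tw a n * (Nat.gcd a n) ^ 2 = a * n := by
  have ha0 : a ≠ 0 := ha.ne_zero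
  have hn0 : n ≠ 0 := hn.ne_zero
  obtain ⟨g, a', n', hg, hcop, hga, hgn⟩ : ∃ g a' n' : ℕ, 0 < g ∧ Nat.Coprime a' n' ∧ a = a' * g ∧
      n = n' * g := by
    obtain ⟨g, a', n', h1, h2, h3, h4⟩ := Nat.exists_coprime' (Nat.gcd_pos_of_pos_left n
      (Nat.pos_of_ne_zero ha0))
    exact ⟨g, a', n', h1, h2, h3, h4⟩
  have hgcd : Nat.gcd a n = g := by
    rw [hga, hgn, Nat.gcd_mul_right, hcop, one_mul]
  have hp : a * n = a' * n' * g ^ 2 := by rw [hga, hgn]; ring
  have htw : tw a n = a' * n' := by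
    unfold tw
    rw [hgcd, hp]
    exact Nat.mul_div_cancel _ (by positivity)
  have ha'0 : a' ≠ 0 := by
    rintro rfl
    exact ha0 (by rw [hga, zero_mul])
  have hn'0 : n' ≠ 0 := by
    rintro rfl
    exact hn0 (by rw [hgn, zero_mul])
  have hag : Nat.Coprime a' g := Nat.coprime_of_squarefree_mul (by rw [← hga]; exact ha)
  have hng : Nat.Coprime n' g := Nat.coprime_of_squarefree_mul (by rw [← hgn]; exact hn)
  have hsa : Squarefree a' := ha.squarefree_of_dvd ⟨g, hga⟩
  have hsn : Squarefree n' := hn.squarefree_of_dvd ⟨g, hgn⟩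
  refine ⟨?_, ?_, ?_⟩
  · rw [htw]
    exact (Nat.squarefree_mul hcop).2 ⟨hsa, hsn⟩
  · rw [htw, Nat.primeFactors_mul ha'0 hn'0]
    have hap : a.primeFactors = a'.primeFactors ∪ g.primeFactors := by
      rw [hga, Nat.primeFactors_mul ha'0 hg.ne']
    have hnp : n.primeFactors = n'.primeFactors ∪ g.primeFactors := by
      rw [hgn, Nat.primeFactors_mul hn'0 hg.ne']
    have d1 := hag.disjoint_primeFactors
    have d2 := hng.disjoint_primeFactors
    have d3 := hcop.disjoint_primeFactors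
    rw [Finset.disjoint_left] at d1 d2 d3
    rw [hap, hnp]
    ext p
    rw [mem_symmDiff, mem_union, mem_union, mem_union]
    have e1 := @d1 p
    have e2 := @d2 p
    have e3 := @d3 p
    tauto
  · rw [htw, hgcd, hp]

theorem tw_mod {a n : ℕ} (ha : Squarefree a) (hn : Squarefree n) (ha4 : a % 4 = 1)
    (hn4 : n % 4 = 3) : tw a n % 4 = 3 := by
  have h := (tw_spec ha hn).2.2
  have hg : Nat.gcd a n % 2 = 1 := by
    by_contra hc
    have h1 : 2 ∣ Nat.gcd a n := by omega
    have h2 : 2 ∣ a := h1.trans (Nat.gcd_dvd_left a n)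
    omega
  have h1 : (Nat.gcd a n) ^ 2 % 4 = 1 := by
    have h2 : Nat.gcd a n % 4 = 1 ∨ Nat.gcd a n % 4 = 3 := by omega
    rcases h2 with h2 | h2 <;> rw [Nat.pow_mod, h2]
  have h3 : (tw a n * (Nat.gcd a n) ^ 2) % 4 = (a * n) % 4 := by rw [h]
  rw [Nat.mul_mod, h1, Nat.mul_mod a n, ha4, hn4] at h3
  omega

theorem Mu_pf {a : ℕ} (ha : Squarefree a) (ha4 : a % 4 = 1) : Mu a.primeFactors := by
  have hS : ∀ p ∈ a.primeFactors, Po p := by
    intro p hp
    refine ⟨Nat.prime_of_mem_primeFactors hp, ?_⟩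
    rintro rfl
    have := Nat.dvd_of_mem_primeFactors hp
    omega
  refine ⟨hS, ?_⟩
  have h1 := sum_uu a.primeFactors hS
  rw [Nat.prod_primeFactors_of_squarefree ha, ha4] at h1
  have h2 : ∑ p ∈ a.primeFactors, uu p = 0 := by
    by_contra hc
    rw [if_neg hc] at h1
    omega
  have h3 : ∑ p ∈ a.primeFactors, uu p =
      (((a.primeFactors.filter fun p => p % 4 = 3).card : ℕ) : ZMod 2) := by
    unfold uu
    rw [Finset.sum_ite, sum_const_zero, add_zero, sum_const, nsmul_eq_mul, mul_one]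
  rw [h3, ZMod.natCast_eq_zero_iff] at h2
  exact (even_iff_two_dvd).2 h2

/-- **J-TR: the joint law of the numbers of solvable factorizations of the twists by finitely many
multipliers.** `P` depends on `n` modulo `M`, `8 ∣ M`, implies `n = 3` modulo `4` and holds for a
number prime to `M`; the `a k` are distinct, squarefree and `1` modulo `4`. -/
theorem dens_JNf {N : ℕ} (r : Fin N → ℕ) (hJ : S_JDQ r) (a : Fin N → ℕ)
    (ha : Function.Injective a) (hsa : ∀ k, Squarefree (a k)) (ha4 : ∀ k, a k % 4 = 1)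
    (M : ℕ) (hM : 8 ∣ M) (hM0 : 0 < M) (P : ℕ → Prop) (hP : ∀ n, P n ↔ P (n % M))
    (h4 : ∀ n, P n → n % 4 = 3) (b : ℕ) (hb : P b) (hc : b.Coprime M) :
    Tendsto (fun X : ℕ => (((Icc 1 X).filter fun n => Squarefree n ∧ P n ∧
      ∀ k, Nf (tw (a k) n) = 2 ^ (r k + 1)).card : ℝ) /
      (((Icc 1 X).filter fun n => Squarefree n ∧ P n).card : ℝ)) atTop
      (nhds (∏ k, gk (r k))) := by
  set K : Finset ℕ := (range M).filter P with hK
  have hm : ∀ n : ℕ, n % M ∈ K ↔ P n := by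
    intro n
    rw [hK, mem_filter, mem_range, hP n]
    exact ⟨fun h => h.2, fun h => ⟨Nat.mod_lt _ hM0, h⟩⟩
  have hok : OkM M false 0 0 K := by
    refine ⟨fun _ => rfl, fun h => absurd h (by decide), fun a ha => ?_⟩
    rw [hK, mem_filter, mem_range] at ha
    rw [if_pos rfl]
    exact ⟨ha.1, h4 a ha.2⟩
  have hbc : (b % M).Coprime M := by
    rw [Nat.Coprime, ← Nat.gcd_rec, Nat.gcd_comm]
    exact hc
  have hV : Function.Injective fun k => (a k).primeFactors := by
    intro i j hij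
    apply ha
    have h : (a i).primeFactors = (a j).primeFactors := hij
    rw [← Nat.prod_primeFactors_of_squarefree (hsa i), ← Nat.prod_primeFactors_of_squarefree (hsa j),
      h]
  have h := densJ r hJ (fun k => (a k).primeFactors) hV (fun k => Mu_pf (hsa k) (ha4 k)) M hM hM0 K
    hok (b % M) ((hm b).2 hb) hbc
  have hG : ∀ n : ℕ, Squarefree n → P n →
      (GdJ r (fun k => (a k).primeFactors) n.primeFactors ↔
        ∀ k, Nf (tw (a k) n) = 2 ^ (r k + 1)) := by
    intro n hn hPn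
    unfold GdJ
    refine forall_congr' fun k => ?_
    have h1 := tw_spec (hsa k) hn
    rw [← h1.2.1]
    exact Gdk_iff_Nf (r k) h1.1 (tw_mod (hsa k) hn (ha4 k) (h4 n hPn))
  refine h.congr fun X => ?_
  congr 3
  · refine filter_congr fun n _ => ?_
    rw [hm]
    constructor
    · rintro ⟨h1, h2, h3⟩
      exact ⟨h1, h2, (hG n h1 h2).1 h3⟩
    · rintro ⟨h1, h2, h3⟩
      exact ⟨h1, h2, (hG n h1 h2).2 h3⟩
  · refine filter_congr fun n _ => ?_
    rw [hm]

end Pool.Agent.Run7.h424.J
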