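import Pool.Agent.Run7.h238.J.Stm
import Pool.Agent.Run7.h741.NM.Asy
import Pool.Agent.N218.GB.Fin

/-!
# Project JL, part J-ASY: the joint law for sets of primes from the parts (after
`Pool/Agent/N218/GB/Asy.lean` by helper218, `Pool/Agent/Run7/h741/NM/Asy.lean` by helper741 and
`Pool/Agent/Run7/h843/G7.lean` by helper843)
-/

set_option autoImplicit false

open scoped Classical
open Finset Filter

namespace Pool.Agent.Run7.h424.J

open Pool.Agent.Run7.h238.J
open Pool.Agent.N916.GB (Po SA ps S_BIL HB S_EQ CntP S_ME8 S_HAL N8 S_FE1 Nd S_ND)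
open Pool.Agent.Y703.CX (sm la jj XX eL zz kk S_SIE eL_tendsto logX_eq HH NN ev_eL one_le_exp
  HH_ge HH_le HH_pos kk_ge kk_le X_pos one_add_log lin_le kap zz_ge zz_pos kap_nonneg kap_pow kap_le)
open Pool.Agent.Y703.CQ (nr)
open Pool.Agent.N973.ND (uu)
open Pool.Agent.N218.GB.Asy (Sml sml_of sml_add sml_eps sml_many sml_cut sml_coll log_three SA_card
  cmp)
open Pool.Agent.Run7.h741.NM (Cl SS)
open Pool.Agent.Run7.h843.G (Gdk OkM)
open Run7.h843.L (gk gk_mem)

/-- the main error term -/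
theorem sml_main {C : ℝ} (hC : 1 ≤ C) (M : ℕ) : Sml fun X => (M * (NN X : ℝ) + M) ^ kk X *
    (3 ^ (20 * kk X ^ 2 + 20) * kap C X) * (X * (1 + Real.log X)) := by
  apply sml_of (C := 4 * C) (a := 1) (by norm_num)
  filter_upwards [ev_eL (40000 + 4 * M)] with X hX
  set l := eL X with hl
  have hM0 : (0 : ℝ) ≤ M := Nat.cast_nonneg _
  have h0 : 0 < eL X := by linarith
  have h1 : 1 ≤ eL X := by linarith
  have hX0 : (0 : ℝ) ≤ X := Nat.cast_nonneg _
  have hN : M * (NN X : ℝ) + M ≤ Real.exp (5 * l) := by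
    have h2 : (NN X : ℝ) ≤ HH X * Real.log X + 1 := by
      unfold NN
      push_cast
      have := Nat.floor_le (a := (HH X : ℝ) * Real.log X)
        (mul_nonneg (Nat.cast_nonneg _) (Real.log_natCast_nonneg X))
      linarith
    have h3 : (HH X : ℝ) * Real.log X ≤ 2 * Real.exp (4 * l) := by
      rw [logX_eq h0]
      calc (HH X : ℝ) * Real.exp (eL X) ≤ 2 * Real.exp (3 * eL X) * Real.exp (eL X) :=
            mul_le_mul_of_nonneg_right (HH_le h0) (Real.exp_pos _).le
        _ = 2 * Real.exp (4 * l) := by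
            rw [mul_assoc, ← Real.exp_add]
            congr 2
            rw [hl]
            ring
    have h4 : 1 ≤ Real.exp (4 * l) := one_le_exp (by linarith)
    have h5 : (4 * M : ℝ) ≤ Real.exp l := by
      have := Real.add_one_le_exp l
      linarith
    have h6 : Real.exp (5 * l) = Real.exp (4 * l) * Real.exp l := by
      rw [← Real.exp_add]; congr 1; ring
    rw [h6]
    have h7 : (NN X : ℝ) + 1 ≤ 4 * Real.exp (4 * l) := by linarith
    calc M * (NN X : ℝ) + M = M * ((NN X : ℝ) + 1) := by ring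
      _ ≤ M * (4 * Real.exp (4 * l)) := mul_le_mul_of_nonneg_left h7 hM0
      _ = Real.exp (4 * l) * (4 * M) := by ring
      _ ≤ Real.exp (4 * l) * Real.exp l := mul_le_mul_of_nonneg_left h5 (Real.exp_pos _).le
  have hkk := kk_le h1
  have hkk0 : (0 : ℝ) ≤ kk X := Nat.cast_nonneg _
  have hA : (M * (NN X : ℝ) + M) ^ kk X ≤ Real.exp (55 * l ^ 2) := by
    calc (M * (NN X : ℝ) + M) ^ kk X ≤ (Real.exp (5 * l)) ^ kk X := by gcongr
      _ = Real.exp (kk X * (5 * l)) := (Real.exp_nat_mul _ _).symm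
      _ ≤ Real.exp (55 * l ^ 2) := by
          apply Real.exp_le_exp.2
          nlinarith
  have hB : (3 : ℝ) ^ (20 * kk X ^ 2 + 20) ≤ Real.exp (2684 * l ^ 2) := by
    have e : (3 : ℝ) ^ (20 * kk X ^ 2 + 20) =
        Real.exp ((20 * (kk X : ℝ) ^ 2 + 20) * Real.log 3) := by
      rw [mul_comm (20 * (kk X : ℝ) ^ 2 + 20) (Real.log 3), Real.exp_mul,
        Real.exp_log (by norm_num)]
      rw [← Real.rpow_natCast]
      congr 1
      push_cast
      ring
    rw [e]
    apply Real.exp_le_exp.2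
    have h2 := log_three
    have h3 : (kk X : ℝ) ^ 2 ≤ 121 * l ^ 2 := by nlinarith
    have h4 : 0 ≤ (kk X : ℝ) ^ 2 := sq_nonneg _
    have h5 : (20 * (kk X : ℝ) ^ 2 + 20) * Real.log 3 ≤ (20 * (kk X : ℝ) ^ 2 + 20) * 1.1 :=
      mul_le_mul_of_nonneg_left h2 (by positivity)
    have h6 : 1 ≤ l ^ 2 := one_le_pow₀ h1
    linarith
  have hK := kap_le hC h1
  have hLg := one_add_log h0
  have hmain : (M * (NN X : ℝ) + M) ^ kk X * (3 ^ (20 * kk X ^ 2 + 20) * kap C X) *
      (X * (1 + Real.log X)) ≤ Real.exp (55 * l ^ 2) * (Real.exp (2684 * l ^ 2) *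
        (2 * C * Real.exp (-l ^ 3 / 12))) * (X * (2 * Real.exp l)) := by
    have := kap_nonneg hC X
    have : 0 ≤ 1 + Real.log X := by
      have := Real.log_natCast_nonneg X
      linarith
    gcongr
  refine hmain.trans ?_
  have e : Real.exp (55 * l ^ 2) * (Real.exp (2684 * l ^ 2) *
        (2 * C * Real.exp (-l ^ 3 / 12))) * (X * (2 * Real.exp l)) =
      4 * C * (X * Real.exp (55 * l ^ 2 + 2684 * l ^ 2 + -l ^ 3 / 12 + l)) := by
    rw [Real.exp_add, Real.exp_add, Real.exp_add]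
    ring
  rw [e]
  have h9 : 55 * l ^ 2 + 2684 * l ^ 2 + -l ^ 3 / 12 + l ≤ -1 * l := by
    have h10 : 40000 * l ^ 2 ≤ l ^ 3 := by
      have : l ^ 3 = l * l ^ 2 := by ring
      rw [this]
      exact mul_le_mul_of_nonneg_right (by linarith) (sq_nonneg l)
    have h11 : l ≤ l ^ 2 := by nlinarith
    linarith
  have h11 := Real.exp_le_exp.2 h9
  have hC0 : (0 : ℝ) ≤ 4 * C := by linarith
  gcongr

theorem SS_sub (M : ℕ) (K : Finset ℕ) (X : ℕ) : SS M K X ⊆ SA X := by
  intro S hS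
  unfold SS SA at *
  rw [mem_filter] at hS ⊢
  exact ⟨hS.1, hS.2.1.1, hS.2.2⟩

theorem sml_sum {ι : Type*} (s : Finset ι) (E : ι → ℕ → ℝ) (h : ∀ i ∈ s, Sml (E i)) :
    Sml fun X => ∑ i ∈ s, E i X := by
  revert h
  refine Finset.induction_on s ?_ ?_
  · intro _ δ hδ
    filter_upwards with X
    rw [Finset.sum_empty]
    positivity
  · intro a t ha ih h δ hδ
    have h1 := sml_add (h a (mem_insert_self _ _)) (ih fun i hi => h i (mem_insert_of_mem hi)) δ hδ
    filter_upwards [h1] with X hX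
    rw [Finset.sum_insert ha]
    exact hX

theorem card9 {α : Type*} [DecidableEq α] {T A1 A2 A3 A4 A5 A6 A7 A8 A9 : Finset α}
    (h : T ⊆ ((((((((A1 ∪ A2) ∪ A3) ∪ A4) ∪ A5) ∪ A6) ∪ A7) ∪ A8) ∪ A9)) :
    (T.card : ℝ) ≤ ((((((((A1.card : ℝ) + A2.card) + A3.card) + A4.card) + A5.card) + A6.card) +
      A7.card) + A8.card) + A9.card := by
  have h0 := card_le_card h
  have h1 := card_union_le A1 A2
  have h2 := card_union_le (A1 ∪ A2) A3
  have h3 := card_union_le ((A1 ∪ A2) ∪ A3) A4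
  have h4 := card_union_le (((A1 ∪ A2) ∪ A3) ∪ A4) A5
  have h5 := card_union_le ((((A1 ∪ A2) ∪ A3) ∪ A4) ∪ A5) A6
  have h6 := card_union_le (((((A1 ∪ A2) ∪ A3) ∪ A4) ∪ A5) ∪ A6) A7
  have h7 := card_union_le ((((((A1 ∪ A2) ∪ A3) ∪ A4) ∪ A5) ∪ A6) ∪ A7) A8
  have h8 := card_union_le (((((((A1 ∪ A2) ∪ A3) ∪ A4) ∪ A5) ∪ A6) ∪ A7) ∪ A8) A9
  have h9 : T.card ≤ A1.card + A2.card + A3.card + A4.card + A5.card + A6.card + A7.card +
      A8.card + A9.card := by omega
  exact_mod_cast h9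

theorem sum_symm (f : ℕ → ZMod 2) (A B : Finset ℕ) :
    ∑ v ∈ A, f v + ∑ v ∈ B, f v = ∑ v ∈ symmDiff A B, f v := by
  have h0 : ∀ x : ZMod 2, x + x = 0 := fun x => CharTwo.add_self_eq_zero x
  have h1 := Finset.sum_inter_add_sum_sdiff A B f
  have h2 := Finset.sum_inter_add_sum_sdiff B A f
  rw [inter_comm] at h2
  have h3 : symmDiff A B = (A \ B) ∪ (B \ A) := rfl
  rw [h3, sum_union disjoint_sdiff_sdiff, ← h1, ← h2]
  have := h0 (∑ x ∈ A ∩ B, f x)
  linear_combination this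

/-- the sets with few large primes of a kind -/
noncomputable def Fw (d : ℕ → ZMod 2) (A R z X : ℕ) : Finset (Finset ℕ) :=
  (SA X).filter fun S => ((la z S).filter fun p => d p ≠ 0).card < A * (sm z S).card + R

theorem uu_ne {p : ℕ} : uu p ≠ 0 ↔ p % 4 = 3 := by
  unfold uu
  by_cases h : p % 4 = 3 <;> simp [h]

/-- the sets outside the regular part -/
theorem out_sub (hND : S_ND) {M : ℕ} (m : ℕ) (K : Finset ℕ) (X z H k R : ℕ)
    (V : Fin M → Finset ℕ) (W : Finset ℕ) (hW : ∀ v ∈ W, Po v) :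
    SS m K X \ ((RR m K X z H k).filter fun S => NdJ R W V (sm z S) (la z S)) ⊆
      (((((((((SA X).filter fun S => k < S.card) ∪
      ((SA X).filter fun S => S.card ≤ k ∧
        X < (∏ p ∈ sm z S, p) * ∏ p ∈ la z S, XX H (jj H p))) ∪
      ((SA X).filter fun S => ¬ Set.InjOn (jj H) (la z S : Set ℕ))) ∪
      Fw uu 2 (R + 2 * W.card) z X) ∪
      ((SA X).filter fun S => S.card ≤ k ∧ ¬ N8 (sm z S ∪ W) (la z S))) ∪
      ((SA X).filter fun S => ∀ p ∈ la z S, p % 8 ≠ 3 % 8)) ∪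
      ((SA X).filter fun S => ∀ p ∈ la z S, p % 8 ≠ 5 % 8)) ∪
      (univ : Finset (Fin M)).offDiag.biUnion fun e =>
        Fw (lab V e.1 e.2) 4 (R + 4 * W.card) z X) ∪
      (univ : Finset (Fin M)).offDiag.biUnion fun e =>
        Fw (fun p => lab V e.1 e.2 p + uu p) 4 (R + 4 * W.card) z X := by
  intro S hS
  rw [Finset.mem_sdiff, Finset.mem_filter] at hS
  obtain ⟨h1', h2⟩ := hS
  have h1 := SS_sub m K X h1'
  simp only [mem_union, mem_filter, mem_biUnion, Fw]
  by_contra hc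
  push Not at hc
  obtain ⟨⟨⟨⟨⟨⟨⟨⟨c1, c2⟩, c3⟩, c4⟩, c5⟩, c6⟩, c7⟩, c8⟩, c9⟩ := hc
  have d1 : S.card ≤ k := c1 h1
  have d2 := c2 h1 d1
  have d3 := c3 h1
  have d4 := c4 h1
  have d5 := c5 h1 d1
  obtain ⟨p3, hp3, hp3'⟩ := c6 h1
  obtain ⟨p5, hp5, hp5'⟩ := c7 h1
  have hS : ∀ p ∈ S, Po p := by
    unfold SA at h1
    exact (mem_filter.1 h1).2.1
  have hcd : (sm z S ∪ W).card ≤ (sm z S).card + W.card := card_union_le _ _
  have d6 : Nd (sm z S ∪ W) (la z S) := by
    apply hND _ _ _ _ d5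
    · exact ⟨p3, hp3, by simpa using hp3'⟩
    · exact ⟨p5, hp5, by simpa using hp5'⟩
    · intro p hp
      rcases mem_union.1 hp with h | h
      · exact hS p (mem_filter.1 h).1
      · exact hW p h
    · exact fun p hp => hS p (mem_filter.1 hp).1
  apply h2
  refine ⟨?_, d6, ?_, ?_⟩
  · unfold RR
    rw [mem_filter]
    exact ⟨h1', d3, d1, d2⟩
  · have e : ((la z S).filter fun p => p % 4 = 3) = (la z S).filter fun p => uu p ≠ 0 :=
      filter_congr fun p _ => uu_ne.symm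
    rw [e]
    omega
  · intro i j hij
    have hm : (i, j) ∈ (univ : Finset (Fin M)).offDiag := by
      rw [mem_offDiag]
      exact ⟨mem_univ _, mem_univ _, hij⟩
    have d8 := c8 (i, j) hm h1
    have d9 := c9 (i, j) hm h1
    simp only at d8 d9
    constructor
    · omega
    · omega

theorem sml_Fw (hF : S_JFEW) (hS : S_SIE) (hM : S_ME8) {d : ℕ → ZMod 2} (hd : Pos d) (A R : ℕ) :
    Sml fun X => ((Fw d A R (zz X) X).card : ℝ) :=
  sml_eps (E := fun X => ((Fw d A R (zz X) X).card : ℝ)) (hF hS hM d hd A R)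

theorem sml_pairs (hF : S_JFEW) (hS : S_SIE) (hM : S_ME8) {M : ℕ}
    (d : Fin M → Fin M → ℕ → ZMod 2) (hd : ∀ i j, i ≠ j → Pos (d i j)) (R : ℕ) :
    Sml fun X => ∑ e ∈ (univ : Finset (Fin M)).offDiag, ((Fw (d e.1 e.2) 4 R (zz X) X).card : ℝ) := by
  refine sml_sum (univ : Finset (Fin M)).offDiag
    (fun e X => ((Fw (d e.1 e.2) 4 R (zz X) X).card : ℝ)) ?_
  intro e he
  rw [mem_offDiag] at he
  exact sml_Fw hF hS hM (hd e.1 e.2 he.2.2) 4 R

/-- **J-ASY: the joint law for sets of primes, from the parts.** -/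
theorem t_JDQ' {M : ℕ} (r : Fin M → ℕ) (h1 : S_BIL) (h3 : S_EQ) (h4 : S_JLA r) (h5 : S_JBOX r)
    (hK : S_JKEY r) (hC : CntP) (hS : S_SIE) (hH : S_HAL) (hM : S_ME8) (hB : S_JBAD)
    (hF : S_JFEW) (hP : S_JPOS) (hF1 : S_FE1) (hND : S_ND) : S_JDQ r := by
  intro m hm8 hm0 K hOk V hV hMu ε hε
  obtain ⟨R, C, hC1, hkey⟩ := hK h1 h3 h4 h5 (ε / 2) (by linarith)
  set W : Finset ℕ := univ.biUnion V with hWdef
  have hVW : ∀ k, V k ⊆ W := fun k => subset_biUnion_of_mem V (mem_univ k)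
  have hW : ∀ v ∈ W, Po v := by
    intro v hv
    rw [hWdef, mem_biUnion] at hv
    obtain ⟨k, _, hk⟩ := hv
    exact (hMu k).1 v hk
  have hpos : ∀ i j : Fin M, i ≠ j → Pos (lab V i j) ∧ Pos (fun p => lab V i j p + uu p) := by
    intro i j hij
    have hne : (symmDiff (V i) (V j)).Nonempty := by
      rw [Finset.nonempty_iff_ne_empty]
      intro h
      exact hij (hV (symmDiff_eq_bot.1 h))
    have hPo : ∀ p ∈ symmDiff (V i) (V j), Po p := by
      intro p hp
      rw [mem_symmDiff] at hp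
      rcases hp with h | h
      · exact (hMu i).1 p h.1
      · exact (hMu j).1 p h.1
    have h := hP _ hne hPo
    have e : lab V i j = fun p => ∑ v ∈ symmDiff (V i) (V j), nr v p := by
      funext p
      unfold lab
      exact sum_symm (fun v => nr v p) (V i) (V j)
    refine ⟨e ▸ h.1, ?_⟩
    have e2 : (fun p => lab V i j p + uu p) =
        fun p => ∑ v ∈ symmDiff (V i) (V j), nr v p + uu p := by
      rw [e]
    rw [e2]
    exact h.2.1
  have hpu : Pos uu := by
    have h := hP {3} ⟨3, mem_singleton_self 3⟩ (by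
      intro p hp
      rw [mem_singleton] at hp
      subst hp
      exact ⟨Nat.prime_three, by norm_num⟩)
    exact h.2.2
  have s1 := sml_many hC
  have s2 := sml_cut hC
  have s3 := sml_coll hC
  have s4 : Sml fun X => ((Fw uu 2 (R + 2 * W.card) (zz X) X).card : ℝ) :=
    sml_Fw hF hS hM hpu 2 (R + 2 * W.card)
  have s5 := sml_eps (hB hS hH hM W hW)
  have s6 := sml_eps (hF1 hS hM 3 (by norm_num))
  have s7 := sml_eps (hF1 hS hM 5 (by norm_num))
  have s8 := sml_main hC1 m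
  have s9 : Sml fun X => ∑ e ∈ (univ : Finset (Fin M)).offDiag,
      ((Fw (lab V e.1 e.2) 4 (R + 4 * W.card) (zz X) X).card : ℝ) :=
    sml_pairs hF hS hM (fun i j => lab V i j) (fun i j hij => (hpos i j hij).1) (R + 4 * W.card)
  have s10 : Sml fun X => ∑ e ∈ (univ : Finset (Fin M)).offDiag,
      ((Fw (fun p => lab V e.1 e.2 p + uu p) 4 (R + 4 * W.card) (zz X) X).card : ℝ) :=
    sml_pairs hF hS hM (fun i j p => lab V i j p + uu p) (fun i j hij => (hpos i j hij).2)
      (R + 4 * W.card)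
  have stot := sml_add (sml_add (sml_add (sml_add (sml_add (sml_add (sml_add (sml_add (sml_add s1 s2)
    s3) s4) s5) s6) s7) s9) s10) s8
  have hev := stot (ε / 2) (by linarith)
  have hg : 0 ≤ ∏ k, gk (r k) ∧ ∏ k, gk (r k) ≤ 1 :=
    ⟨Finset.prod_nonneg fun k _ => (gk_mem (r k)).1,
      Finset.prod_le_one (fun k _ => (gk_mem (r k)).1) fun k _ => (gk_mem (r k)).2⟩
  have hev2 : ∀ᶠ X : ℕ in atTop, |(((SS m K X).filter (GdJ r V)).card : ℝ) -
      (∏ k, gk (r k)) * ((SS m K X).card : ℝ)| ≤ ε * X := by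
    filter_upwards [hev, ev_eL (1 + 2 * (W.sup id : ℕ) + W.card)] with X hX hl'
    have hB0 : (0 : ℝ) ≤ (W.sup id : ℕ) := Nat.cast_nonneg _
    have hB1 : (0 : ℝ) ≤ (W.card : ℝ) := Nat.cast_nonneg _
    have hl : 1 ≤ eL X := by linarith
    have hl0 : 0 < eL X := by linarith
    have hXp := X_pos hl0
    have hWz : ∀ v ∈ W, v ≤ zz X := by
      intro v hv
      have a1 : v ≤ W.sup id := Finset.le_sup (f := id) hv
      have a2 := zz_ge hl
      have a3 := Real.add_one_le_exp ((eL X) ^ 3)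
      have a4 : eL X ≤ (eL X) ^ 3 := by
        have b1 : 1 ≤ (eL X) ^ 2 := one_le_pow₀ hl
        have b2 : (eL X) ^ 3 = eL X * (eL X) ^ 2 := by ring
        rw [b2]
        exact le_mul_of_one_le_right hl0.le b1
      have a5 : ((W.sup id : ℕ) : ℝ) ≤ zz X := by linarith
      have a6 : (W.sup id : ℕ) ≤ zz X := by exact_mod_cast a5
      exact a1.trans a6
    have hWk : W.card ≤ kk X := by
      have a1 := kk_ge X
      have a2 : (W.card : ℝ) ≤ kk X := by linarith
      exact_mod_cast a2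
    have hNN : (HH X : ℝ) * Real.log X < NN X := by
      unfold NN
      push_cast
      exact Nat.lt_floor_add_one _
    have hmain := hkey m hm8 hm0 K hOk V W hMu hVW hW X (zz X) (HH X) (kk X) (NN X) (kap C X) hXp
      (HH_pos hl0) (zz_pos hl) (kap_nonneg hC1 X) (kap_pow hC1 hl) hNN hWz hWk
    set T := (RR m K X (zz X) (HH X) (kk X)).filter fun S =>
      NdJ R W V (sm (zz X) S) (la (zz X) S) with hT
    have hTG : (RR m K X (zz X) (HH X) (kk X)).filter
        (fun S => NdJ R W V (sm (zz X) S) (la (zz X) S) ∧ GdJ r V S) = T.filter (GdJ r V) := by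
      rw [hT, filter_filter]
    rw [hTG] at hmain
    have hTS : T ⊆ SS m K X := (filter_subset _ _).trans (filter_subset _ _)
    have hRS : ((RR m K X (zz X) (HH X) (kk X)).card : ℝ) ≤ X := by
      exact_mod_cast (card_le_card ((filter_subset _ _).trans (SS_sub m K X))).trans (SA_card X)
    have hcmp := cmp (GdJ r V) T (SS m K X) hTS (∏ k, gk (r k)) hg.1 hg.2
    have hout := card9 (out_sub hND m K X (zz X) (HH X) (kk X) R V W hW)
    rw [← hT] at hout
    have hb1 : (((univ : Finset (Fin M)).offDiag.biUnion fun e =>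
        Fw (lab V e.1 e.2) 4 (R + 4 * W.card) (zz X) X).card : ℝ) ≤
        ∑ e ∈ (univ : Finset (Fin M)).offDiag,
          ((Fw (lab V e.1 e.2) 4 (R + 4 * W.card) (zz X) X).card : ℝ) := by
      exact_mod_cast card_biUnion_le
    have hb2 : (((univ : Finset (Fin M)).offDiag.biUnion fun e =>
        Fw (fun p => lab V e.1 e.2 p + uu p) 4 (R + 4 * W.card) (zz X) X).card : ℝ) ≤
        ∑ e ∈ (univ : Finset (Fin M)).offDiag,
          ((Fw (fun p => lab V e.1 e.2 p + uu p) 4 (R + 4 * W.card) (zz X) X).card : ℝ) := by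
      exact_mod_cast card_biUnion_le
    have g1 : ε / 2 * ((RR m K X (zz X) (HH X) (kk X)).card : ℝ) ≤ ε / 2 * X :=
      mul_le_mul_of_nonneg_left hRS (by positivity)
    beta_reduce at hX
    linarith
  obtain ⟨X₀, h0⟩ := eventually_atTop.1 hev2
  exact ⟨X₀, fun X hX => h0 X hX⟩

end Pool.Agent.Run7.h424.J
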